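import Pool.Agent.H978Z.Subst.Defs

namespace Pool.Agent.H978Z.Subst

open LaurentPolynomial

section general
variable {A : Type} (F : A → ℂ)

/-- correlation at lag `K + 1` of a finite word -/
noncomputable def corr (K : ℕ) : List A → ℂ
  | [] => 0
  | a :: w => (w[K]?).elim 0 F * (starRingEnd ℂ) (F a) + corr K w

/-- generating polynomial of a word -/
noncomputable def PP : List A → ℂ[T;T⁻¹]
  | [] => 0
  | a :: w => C (F a) + T 1 * PP w

/-- conjugate generating polynomial of a word -/
noncomputable def PS : List A → ℂ[T;T⁻¹]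
  | [] => 0
  | a :: w => C ((starRingEnd ℂ) (F a)) + T (-1) * PS w

lemma coeff_CT_mul (p : ℂ[T;T⁻¹]) (c : ℂ) (n m : ℤ) :
    (C c * T n * p).coeff m = c * p.coeff (m - n) := by
  rw [← single_eq_C_mul_T]
  exact AddMonoidAlgebra.coeff_single_mul_eq_mul_coeff (m - n) (by intro m' _; omega)

lemma coeff_T_mul (p : ℂ[T;T⁻¹]) (n m : ℤ) : (T n * p).coeff m = p.coeff (m - n) := by
  have := coeff_CT_mul p 1 n m
  simpa using this

lemma coeff_C_mul (p : ℂ[T;T⁻¹]) (c : ℂ) (m : ℤ) : (C c * p).coeff m = c * p.coeff m := by
  have := coeff_CT_mul p c 0 m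
  simpa using this

lemma PP_append (u v : List A) : PP F (u ++ v) = PP F u + T u.length * PP F v := by
  induction u with
  | nil => simp [PP]
  | cons a u ih =>
    rw [List.cons_append, PP, PP, ih, List.length_cons]
    push_cast
    rw [T_add]; ring

lemma PS_append (u v : List A) : PS F (u ++ v) = PS F u + T (-(u.length : ℤ)) * PS F v := by
  induction u with
  | nil => simp [PS]
  | cons a u ih =>
    rw [List.cons_append, PS, PS, ih, List.length_cons]
    push_cast
    rw [neg_add, T_add]; ring

lemma PP_coeff_neg (w : List A) (m : ℤ) (hm : m < 0) : (PP F w).coeff m = 0 := by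
  induction w generalizing m with
  | nil => simp [PP]
  | cons a w ih =>
    rw [PP, AddMonoidAlgebra.coeff_add, Finsupp.add_apply, coeff_T_mul, ih _ (by omega), C_apply,
      if_neg (by omega), add_zero]

lemma PP_coeff (w : List A) (K : ℕ) : (PP F w).coeff K = (w[K]?).elim 0 F := by
  induction w generalizing K with
  | nil => simp [PP]
  | cons a w ih =>
    rw [PP, AddMonoidAlgebra.coeff_add, Finsupp.add_apply, coeff_T_mul, C_apply]
    cases K with
    | zero => rw [PP_coeff_neg F w _ (by simp)]; simp
    | succ K =>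
      have : ((K + 1 : ℕ) : ℤ) - 1 = K := by push_cast; ring
      rw [this, ih, if_neg (by omega)]; simp

lemma PS_coeff_pos (w : List A) (m : ℤ) (hm : 0 < m) : (PS F w).coeff m = 0 := by
  induction w generalizing m with
  | nil => simp [PS]
  | cons a w ih =>
    rw [PS, AddMonoidAlgebra.coeff_add, Finsupp.add_apply, coeff_T_mul, ih _ (by omega), C_apply,
      if_neg (by omega), add_zero]

lemma TT (n : ℤ) : (T n : ℂ[T;T⁻¹]) * T (-n) = 1 := by rw [← T_add]; simp

lemma coeff_PP_PS (w : List A) (K : ℕ) :
    (PP F w * PS F w).coeff ((K : ℤ) + 1) = corr F K w := by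
  induction w with
  | nil => simp [PP, corr]
  | cons a w ih =>
    have h := TT 1
    have : PP F (a :: w) * PS F (a :: w) = C (F a * (starRingEnd ℂ) (F a))
        + C ((starRingEnd ℂ) (F a)) * T 1 * PP F w + C (F a) * T (-1) * PS F w
        + PP F w * PS F w := by
      rw [PP, PS, map_mul]
      linear_combination (PP F w * PS F w) * h
    rw [this]
    simp only [AddMonoidAlgebra.coeff_add, Finsupp.add_apply]
    rw [coeff_CT_mul, coeff_CT_mul, ih, C_apply, if_neg (by omega), PS_coeff_pos F w _ (by omega),
      add_sub_cancel_right, PP_coeff, corr]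
    ring

variable {F}

lemma elim_le (hF : ∀ a, ‖F a‖ ≤ 1) (o : Option A) : ‖o.elim 0 F‖ ≤ 1 := by
  cases o with
  | none => simp
  | some a => exact hF a

lemma term_le (hF : ∀ a, ‖F a‖ ≤ 1) (o : Option A) (a : A) :
    ‖o.elim 0 F * (starRingEnd ℂ) (F a)‖ ≤ 1 := by
  rw [norm_mul, Complex.norm_conj]
  exact mul_le_one₀ (elim_le hF o) (norm_nonneg _) (hF a)

lemma corr_le (hF : ∀ a, ‖F a‖ ≤ 1) (K : ℕ) (w : List A) : ‖corr F K w‖ ≤ w.length := by
  induction w with
  | nil => simp [corr]
  | cons a w ih =>
    rw [corr, List.length_cons]; push_cast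
    refine (norm_add_le _ _).trans ?_
    linarith [term_le hF (w[K]?) a]

lemma corr_append_aux (hF : ∀ a, ‖F a‖ ≤ 1) (K : ℕ) (u v : List A) :
    ‖corr F K (u ++ v) - corr F K u - corr F K v‖ ≤ ((min u.length (K + 1) : ℕ) : ℝ) := by
  induction u with
  | nil => simp [corr]
  | cons a u ih =>
    rw [List.cons_append, corr, corr]
    by_cases h : K < u.length
    · rw [List.getElem?_append_left h]
      have e : min (a :: u).length (K + 1) = min u.length (K + 1) := by
        rw [List.length_cons]; omega
      rw [e]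
      convert ih using 2; ring
    · have h0 : u[K]? = none := by simp; omega
      have e : min (a :: u).length (K + 1) = min u.length (K + 1) + 1 := by
        rw [List.length_cons]; omega
      rw [h0, e]
      have := term_le hF ((u ++ v)[K]?) a
      push_cast at ih ⊢
      have e2 : ((u ++ v)[K]?).elim 0 F * (starRingEnd ℂ) (F a) + corr F K (u ++ v) -
          ((none : Option A).elim 0 F * (starRingEnd ℂ) (F a) + corr F K u) - corr F K v
          = ((u ++ v)[K]?).elim 0 F * (starRingEnd ℂ) (F a) +
            (corr F K (u ++ v) - corr F K u - corr F K v) := by simp; ring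
      rw [e2]
      refine (norm_add_le _ _).trans ?_
      linarith

lemma corr_append (hF : ∀ a, ‖F a‖ ≤ 1) (K : ℕ) (u v : List A) :
    ‖corr F K (u ++ v) - corr F K u - corr F K v‖ ≤ K + 1 := by
  refine (corr_append_aux hF K u v).trans ?_
  exact_mod_cast min_le_right _ _

lemma corr_append_le (hF : ∀ a, ‖F a‖ ≤ 1) (K : ℕ) (u v : List A) :
    ‖corr F K (u ++ v)‖ ≤ ‖corr F K u‖ + ‖corr F K v‖ + (K + 1) := by
  have h := corr_append hF K u v
  have e : corr F K (u ++ v) = corr F K u + corr F K v
      + (corr F K (u ++ v) - corr F K u - corr F K v) := by ring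
  rw [e]
  refine (norm_add_le _ _).trans ?_
  linarith [norm_add_le (corr F K u) (corr F K v)]

lemma corr_short (K : ℕ) (w : List A) (h : w.length ≤ K + 1) : corr F K w = 0 := by
  induction w with
  | nil => rfl
  | cons a w ih =>
    rw [List.length_cons] at h
    have h0 : w[K]? = none := by simp; omega
    rw [corr, h0, ih (by omega)]; simp

lemma prefix_bound (hF : ∀ a, ‖F a‖ ≤ 1) (K : ℕ) (g : A → List A) (c R : ℝ) (hc : 0 ≤ c)
    (hR : ∀ a, ((g a).length : ℝ) ≤ R)
    (hg : ∀ a, ‖corr F K (g a)‖ + (K + 1) ≤ c * (g a).length) (hR0 : 0 ≤ R)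
    (v u : List A) (h : u <+: v.flatMap g) : ‖corr F K u‖ ≤ c * u.length + R := by
  induction v generalizing u with
  | nil =>
    simp at h; subst h; simpa [corr] using hR0
  | cons a v ih =>
    rw [List.flatMap_cons] at h
    rcases List.prefix_or_prefix_of_prefix h (List.prefix_append (g a) (v.flatMap g)) with h1 | h1
    · have := corr_le hF K u
      have h2 : (u.length : ℝ) ≤ (g a).length := by exact_mod_cast h1.length_le
      have : 0 ≤ c * u.length := by positivity
      linarith [hR a]
    · obtain ⟨t, rfl⟩ := h1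
      rw [List.prefix_append_right_inj] at h
      have := ih t h
      have h3 := corr_append_le hF K (g a) t
      rw [List.length_append]; push_cast
      linarith [hg a]

lemma infix_bound (hF : ∀ a, ‖F a‖ ≤ 1) (K : ℕ) (g : A → List A) (c R : ℝ) (hc : 0 ≤ c)
    (hR : ∀ a, ((g a).length : ℝ) ≤ R)
    (hg : ∀ a, ‖corr F K (g a)‖ + (K + 1) ≤ c * (g a).length) (hR0 : 0 ≤ R)
    (v u : List A) (h : u <:+: v.flatMap g) :
    ‖corr F K u‖ ≤ c * u.length + 2 * R + (K + 1) := by
  have hK : (0:ℝ) ≤ K + 1 := by positivity
  induction v with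
  | nil =>
    simp at h; subst h; simp [corr]; positivity
  | cons a v ih =>
    rw [List.flatMap_cons, List.infix_append_iff] at h
    rcases h with h | h | ⟨s, t, rfl, h1, h2⟩
    · have := corr_le hF K u
      have h2 : (u.length : ℝ) ≤ (g a).length := by exact_mod_cast h.length_le
      have : 0 ≤ c * u.length := by positivity
      linarith [hR a]
    · exact ih h
    · have a1 := prefix_bound hF K g c R hc hR hg hR0 v t h2
      have a2 := corr_le hF K s
      have a3 : (s.length : ℝ) ≤ (g a).length := by exact_mod_cast h1.length_le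
      have a4 := corr_append_le hF K s t
      rw [List.length_append]; push_cast
      have : 0 ≤ c * s.length := by positivity
      linarith [hR a]

end general

end Pool.Agent.H978Z.Subst
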