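import Mathlib

namespace Pool.Agent.H978Z.Subst

open MeasureTheory

/-- The extension of a substitution to finite words, by concatenation. -/
def extend {d : ℕ} (σ : Fin d → List (Fin d)) (w : List (Fin d)) : List (Fin d) := w.flatMap σ

/-- The substitution matrix: entry `(i, j)` is the number of occurrences of `i` in `σ j`. -/
def subMatrix {d : ℕ} (σ : Fin d → List (Fin d)) : Matrix (Fin d) (Fin d) ℕ :=
  fun i j => (σ j).count i

/-- Primitivity: some positive power of the substitution matrix has all entries positive. -/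
def Primitive {d : ℕ} (σ : Fin d → List (Fin d)) : Prop :=
  ∃ k : ℕ, 0 < k ∧ ∀ i j, 0 < (subMatrix σ ^ k) i j

/-- `θ` is the Perron-Frobenius eigenvalue: a real eigenvalue of the substitution matrix that is at
least the modulus of every complex eigenvalue. -/
def IsPF {d : ℕ} (σ : Fin d → List (Fin d)) (θ : ℝ) : Prop :=
  ((subMatrix σ).map (Nat.cast : ℕ → ℂ)).charpoly.IsRoot (θ : ℂ) ∧
    ∀ z : ℂ, ((subMatrix σ).map (Nat.cast : ℕ → ℂ)).charpoly.IsRoot z → ‖z‖ ≤ θ

/-- The two-sided subshift: sequences all of whose finite subwords occur in some `σ^n(a)`. -/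
def subshift {d : ℕ} (σ : Fin d → List (Fin d)) : Set (ℤ → Fin d) :=
  {x | ∀ (i : ℤ) (k : ℕ), ∃ (n : ℕ) (a : Fin d),
    List.ofFn (fun j : Fin k => x (i + ((j : ℕ) : ℤ))) <:+: (extend σ)^[n] [a]}

/-- The `n`-th power of the left shift. -/
def shiftBy {d : ℕ} (n : ℤ) (x : ℤ → Fin d) : ℤ → Fin d := fun i => x (i + n)

/-- `μ` is a shift-invariant Borel probability measure carried by the subshift of `σ`. -/
def IsInvariantProb {d : ℕ} (σ : Fin d → List (Fin d)) (μ : Measure (ℤ → Fin d)) : Prop :=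
  IsProbabilityMeasure μ ∧ μ (subshift σ)ᶜ = 0 ∧ MeasurePreserving (shiftBy 1) μ μ

/-- `ν` is the spectral measure of `f` for the Koopman operator of the shift: its Fourier
coefficients are the correlations of `f`. -/
def IsSpectralMeasure {d : ℕ} (μ : Measure (ℤ → Fin d)) (f : (ℤ → Fin d) → ℂ)
    (ν : Measure (AddCircle (1 : ℝ))) : Prop :=
  IsFiniteMeasure ν ∧ ∀ n : ℤ, ∫ t, fourier n t ∂ν = ∫ x, f (shiftBy n x) * (starRingEnd ℂ) (f x) ∂μ

end Pool.Agent.H978Z.Subst
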