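import Pool.Agent.H978Z.Subst.Sigma

namespace Pool.Agent.H978Z.Subst

open MeasureTheory Filter Topology Finset

theorem krylov {Y : Type} [TopologicalSpace Y] [CompactSpace Y]
    [TopologicalSpace.MetrizableSpace Y] [MeasurableSpace Y] [BorelSpace Y] (T : Y → Y)
    (hT : Continuous T) (X : Set Y) (hX : IsClosed X) (x0 : Y) (hx0 : ∀ j, T^[j] x0 ∈ X) :
    ∃ μ : Measure Y, IsProbabilityMeasure μ ∧ μ Xᶜ = 0 ∧ MeasurePreserving T μ μ := by
  classical
  let mm : ℕ → Measure Y := fun n =>
    ((n + 1 : ℕ) : ENNReal)⁻¹ • ∑ j ∈ range (n + 1), Measure.dirac (T^[j] x0)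
  have hmmS : ∀ n (S : Set Y), (∀ j, T^[j] x0 ∈ S) → mm n S = 1 := by
    intro n S hS
    simp only [mm, Measure.smul_apply, Measure.finsetSum_apply, smul_eq_mul]
    rw [sum_congr rfl (g := fun _ => (1 : ENNReal))
      (fun j _ => Measure.dirac_apply_of_mem (hS j))]
    simp only [sum_const, card_range, nsmul_eq_mul, mul_one]
    exact ENNReal.inv_mul_cancel (by simp) (by simp)
  have hmm : ∀ n, IsProbabilityMeasure (mm n) := fun n => ⟨hmmS n _ (fun _ => Set.mem_univ _)⟩
  let m : ℕ → ProbabilityMeasure Y := fun n => ⟨mm n, hmm n⟩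
  have hint : ∀ (n : ℕ) (f : BoundedContinuousFunction Y ℝ), ∫ x, f x ∂(m n : Measure Y)
      = ((n:ℝ) + 1)⁻¹ * ∑ j ∈ range (n + 1), f (T^[j] x0) := by
    intro n f
    show ∫ x, f x ∂(mm n) = _
    simp only [mm]
    rw [integral_smul_measure, integral_finsetSum_measure (fun j _ => f.integrable _)]
    simp only [integral_dirac, smul_eq_mul, ENNReal.toReal_inv, ENNReal.toReal_natCast]
    push_cast; rfl
  let U : Ultrafilter ℕ := Ultrafilter.of atTop
  have hU : (U : Filter ℕ) ≤ atTop := Ultrafilter.of_le atTop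
  let μ : ProbabilityMeasure Y := (U.map m).lim
  have hμ : Tendsto m U (𝓝 μ) := (U.map m).le_nhds_lim
  have hμf := ProbabilityMeasure.tendsto_iff_forall_integral_tendsto.1 hμ
  have hinv : ∀ (f : BoundedContinuousFunction Y ℝ),
      ∫ x, f (T x) ∂(μ : Measure Y) = ∫ x, f x ∂(μ : Measure Y) := by
    intro f
    have h1 := hμf f
    have h2 := hμf (f.compContinuous ⟨T, hT⟩)
    have h3 : Tendsto (fun n : ℕ => (∫ x, (f.compContinuous ⟨T, hT⟩) x ∂(m n : Measure Y))
        - ∫ x, f x ∂(m n : Measure Y)) U (𝓝 0) := by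
      have h4 : Tendsto (fun n : ℕ => (2 * ‖f‖) * (1 / ((n : ℝ) + 1))) U (𝓝 ((2 * ‖f‖) * 0)) :=
        (tendsto_one_div_add_atTop_nhds_zero_nat.mono_left hU).const_mul _
      rw [mul_zero] at h4
      refine squeeze_zero_norm (fun n => ?_) h4
      rw [hint, hint, ← mul_sub, ← sum_sub_distrib]
      have e : ∑ j ∈ range (n + 1), ((f.compContinuous ⟨T, hT⟩) (T^[j] x0) - f (T^[j] x0))
          = f (T^[n + 1] x0) - f (T^[0] x0) := by
        rw [← sum_range_sub (fun j => f (T^[j] x0)) (n + 1)]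
        apply sum_congr rfl
        intro j _
        rw [Function.iterate_succ_apply']
        rfl
      rw [e, norm_mul, norm_inv, Real.norm_of_nonneg (by positivity), mul_comm, one_div]
      gcongr
      refine (norm_sub_le _ _).trans ?_
      linarith [f.norm_coe_le_norm (T^[n + 1] x0), f.norm_coe_le_norm (T^[0] x0)]
    have h5 := tendsto_nhds_unique h3 (h2.sub h1)
    have h6 : (∫ x, (f.compContinuous ⟨T, hT⟩) x ∂(μ : Measure Y)) = ∫ x, f x ∂(μ : Measure Y) := by
      linarith
    exact h6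
  refine ⟨μ, inferInstance, ?_, ⟨hT.measurable, ?_⟩⟩
  · have h := ProbabilityMeasure.limsup_measure_closed_le_of_tendsto hμ hX
    have e : (fun n => (m n : Measure Y) X) = fun _ => 1 := funext fun n => hmmS n X hx0
    rw [e, limsup_const] at h
    rw [prob_compl_eq_zero_iff hX.measurableSet]
    exact le_antisymm prob_le_one h
  · have : IsProbabilityMeasure ((μ : Measure Y).map T) :=
      Measure.isProbabilityMeasure_map hT.measurable.aemeasurable
    refine ext_of_forall_integral_eq_of_IsFiniteMeasure fun f => ?_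
    rw [integral_map hT.measurable.aemeasurable f.continuous.aestronglyMeasurable]
    exact hinv f

variable {d : ℕ}

/-- the word of length `k` of `x` at position `i` -/
def word (x : ℤ → Fin d) (i : ℤ) (k : ℕ) : List (Fin d) :=
  List.ofFn (fun j : Fin k => x (i + ((j : ℕ) : ℤ)))

lemma word_succ (x : ℤ → Fin d) (i : ℤ) (k : ℕ) : word x i (k + 1) = x i :: word x (i + 1) k := by
  unfold word
  rw [List.ofFn_succ]
  congr 1
  · simp
  · congr 1; funext j; congr 1; simp; ring

lemma word_add (x : ℤ → Fin d) (i : ℤ) (k l : ℕ) :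
    word x i (k + l) = word x i k ++ word x (i + k) l := by
  induction k generalizing i with
  | zero => simp [word]
  | succ k ih =>
    rw [show k + 1 + l = (k + l) + 1 by ring, word_succ, word_succ, ih, List.cons_append]
    congr 3; push_cast; ring

lemma word_length (x : ℤ → Fin d) (i : ℤ) (k : ℕ) : (word x i k).length = k := by simp [word]

lemma corr_word (F : Fin d → ℂ) (K N : ℕ) (x : ℤ → Fin d) (i : ℤ) :
    corr F K (word x i (N + (K + 1))) =
      ∑ j ∈ range N, F (x (i + j + (K + 1))) * (starRingEnd ℂ) (F (x (i + j))) := by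
  induction N generalizing i with
  | zero => rw [corr_short K _ (by rw [word_length]; omega)]; simp
  | succ N ih =>
    rw [show N + 1 + (K + 1) = (N + (K + 1)) + 1 by ring, word_succ, corr, ih, sum_range_succ',
      add_comm]
    congr 1
    · apply sum_congr rfl; intro j _; push_cast
      congr 3 <;> ring_nf
    · have : (word x (i + 1) (N + (K + 1)))[K]? = some (x (i + 1 + K)) := by
        unfold word
        rw [List.getElem?_ofFn, dif_pos (by omega)]
      rw [this]
      simp only [Option.elim_some, Nat.cast_zero, add_zero]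
      congr 3; ring

lemma closed_word (i : ℤ) (k : ℕ) (P : List (Fin d) → Prop) :
    IsClosed {x : ℤ → Fin d | P (word x i k)} := by
  have hc : Continuous (fun x : ℤ → Fin d => (fun j : Fin k => x (i + ((j : ℕ) : ℤ)))) := by
    fun_prop
  exact (isClosed_discrete {v : Fin k → Fin d | P (List.ofFn v)}).preimage hc

lemma subshift_closed (σ : Fin d → List (Fin d)) : IsClosed (subshift σ) := by
  have : subshift σ = ⋂ i : ℤ, ⋂ k : ℕ,
      {x : ℤ → Fin d | ∃ n a, word x i k <:+: (extend σ)^[n] [a]} := by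
    ext x; simp [subshift, word]
  rw [this]
  exact isClosed_iInter fun i => isClosed_iInter fun k =>
    closed_word i k (fun w => ∃ n a, w <:+: (extend σ)^[n] [a])

lemma shiftBy_mem {σ : Fin d → List (Fin d)} {x : ℤ → Fin d} (hx : x ∈ subshift σ) (n : ℤ) :
    shiftBy n x ∈ subshift σ := by
  intro i k
  obtain ⟨m, a, h⟩ := hx (i + n) k
  refine ⟨m, a, ?_⟩
  convert h using 3 with j
  simp only [shiftBy]; congr 1; ring

lemma shiftBy_cont (n : ℤ) : Continuous (shiftBy n : (ℤ → Fin d) → (ℤ → Fin d)) := by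
  unfold shiftBy; fun_prop

lemma iter_shift (j : ℕ) : (shiftBy 1 : (ℤ → Fin d) → (ℤ → Fin d))^[j] = shiftBy j := by
  induction j with
  | zero => funext x i; simp [shiftBy]
  | succ j ih =>
    funext x i
    rw [Function.iterate_succ_apply', ih]
    simp only [shiftBy]; congr 1; push_cast; ring

lemma subshift_nonempty : (subshift sg).Nonempty := by
  let C : ℕ → Set (ℤ → Fin 32) := fun K =>
    {x | ∃ n a, word x (-(K:ℤ)) (2 * K) <:+: (extend sg)^[n] [a]}
  have hinf : ∀ (x : ℤ → Fin 32) (K : ℕ) (i : ℤ) (k : ℕ), -(K:ℤ) ≤ i → i + k ≤ K →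
      word x i k <:+: word x (-(K:ℤ)) (2 * K) := by
    intro x K i k h1 h2
    obtain ⟨p, hp⟩ : ∃ p : ℕ, i = -(K:ℤ) + p := ⟨(i + K).toNat, by omega⟩
    obtain ⟨q, hq⟩ : ∃ q : ℕ, 2 * K = p + (k + q) := ⟨2 * K - p - k, by omega⟩
    rw [hq, word_add, word_add, ← hp, ← List.append_assoc]
    exact ⟨_, _, rfl⟩
  have hcl : ∀ K, IsClosed (C K) := fun K =>
    closed_word _ _ (fun w => ∃ n a, w <:+: (extend sg)^[n] [a])
  have hne : ∀ K, (C K).Nonempty := by
    intro K
    have hl := tau_len_ge (2 * K) 0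
    refine ⟨fun i => (tau (2 * K) 0).getD (i + K).toNat 0, 2 * K, 0, ?_⟩
    apply List.IsPrefix.isInfix
    rw [List.prefix_iff_eq_take, word_length]
    apply List.ext_getElem
    · rw [word_length, List.length_take]; change _ = min _ (tau _ _).length; omega
    · intro j h1 h2
      rw [word_length] at h1
      simp only [word, List.getElem_ofFn, List.getElem_take]
      have : (-(K:ℤ) + (j:ℤ) + K).toNat = j := by omega
      rw [this, List.getD_eq_getElem _ _ (by omega)]
      rfl
  have hmono : ∀ K, C (K + 1) ⊆ C K := by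
    rintro K x ⟨n, a, h⟩
    exact ⟨n, a, (hinf x (K + 1) _ _ (by push_cast; omega) (by push_cast; omega)).trans h⟩
  obtain ⟨x, hx⟩ := IsCompact.nonempty_iInter_of_sequence_nonempty_isCompact_isClosed C hmono hne
    (hcl 0).isCompact hcl
  refine ⟨x, fun i k => ?_⟩
  obtain ⟨n, a, h⟩ := Set.mem_iInter.1 hx (i.natAbs + k)
  exact ⟨n, a, (hinf x (i.natAbs + k) i k (by omega) (by omega)).trans h⟩

lemma exists_inv : ∃ μ, IsInvariantProb sg μ := by
  obtain ⟨x0, hx0⟩ := subshift_nonempty
  exact krylov (shiftBy 1) (shiftBy_cont 1) _ (subshift_closed sg) x0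
    (fun j => by rw [iter_shift]; exact shiftBy_mem hx0 _)

lemma birkhoff_small (K : ℕ) (ε : ℝ) (hε : 0 < ε) : ∃ N : ℕ, 0 < N ∧ ∀ x ∈ subshift sg, ∀ i : ℤ,
    ‖∑ j ∈ range N, FF (x (i + j + (K + 1))) * (starRingEnd ℂ) (FF (x (i + j)))‖ ≤ ε * N := by
  have hK : (0:ℝ) < K + 1 := by positivity
  obtain ⟨m, hm⟩ := exists_nat_gt (21 * ((K:ℝ) + 1) / (ε / 2))
  have hc : 21 * ((K:ℝ) + 1) / (m + 1) ≤ ε / 2 := by
    rw [div_lt_iff₀ (by positivity)] at hm
    rw [div_le_iff₀ (by positivity)]
    nlinarith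
  obtain ⟨N, hN⟩ := exists_nat_gt (((ε / 2) * (K + 1) + 2 * 4 ^ m + (K + 1)) / (ε / 2))
  have hN0 : (0:ℝ) < N := lt_trans (by positivity) hN
  refine ⟨N, by exact_mod_cast hN0, fun x hx i => ?_⟩
  obtain ⟨n, a, h⟩ := hx i (N + (K + 1))
  have hb := legal_bound K m n a (word x i (N + (K + 1))) h
  rw [corr_word, word_length] at hb
  rw [div_lt_iff₀ (by positivity)] at hN
  push_cast at hb
  have : 21 * ((K:ℝ) + 1) / (m + 1) * (N + (K + 1)) ≤ ε / 2 * (N + (K + 1)) := by gcongr
  linarith

lemma subshift_infinite : (subshift sg).Infinite := by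
  intro hfin
  obtain ⟨x, hx⟩ := subshift_nonempty
  have : ¬ Function.Injective (fun n : ℕ => shiftBy (n:ℤ) x) := by
    intro hinj
    exact (Set.infinite_of_injective_forall_mem hinj (fun n => shiftBy_mem hx n)) hfin
  rw [Function.not_injective_iff] at this
  have key : ∀ a b : ℕ, a < b → shiftBy (a:ℤ) x ≠ shiftBy (b:ℤ) x := by
    intro a b hab he
    obtain ⟨K, rfl⟩ := Nat.exists_eq_add_of_lt hab
    obtain ⟨N, hN, h⟩ := birkhoff_small K (1 / 2) (by norm_num)
    have h1 := h x hx 0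
    have h2 : ∀ j ∈ range N, FF (x (0 + j + (K + 1))) * (starRingEnd ℂ) (FF (x (0 + j))) = 1 := by
      intro j _
      have := congrFun he ((j:ℤ) - a)
      simp only [shiftBy] at this
      have e1 : (j:ℤ) - a + a = 0 + j := by ring
      have e2 : (j:ℤ) - a + ((a + K + 1 : ℕ) : ℤ) = 0 + j + (K + 1) := by push_cast; ring
      rw [e1, e2] at this
      rw [← this, Complex.mul_conj, Complex.normSq_eq_norm_sq, norm_FF]; simp
    rw [sum_congr rfl h2] at h1
    simp at h1
    have : (0:ℝ) < N := by exact_mod_cast hN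
    linarith
  obtain ⟨a, b, he, hab⟩ := this
  rcases lt_or_gt_of_ne hab with h | h
  · exact key a b h he
  · exact key b a h he.symm

/-- the spin observable -/
noncomputable def obs (x : ℤ → Fin 32) : ℂ := FF (x 0)

lemma cont_pair (a b : ℤ) :
    Continuous (fun x : ℤ → Fin 32 => FF (x a) * (starRingEnd ℂ) (FF (x b))) := by
  have h : Continuous FF := continuous_of_discreteTopology
  exact (h.comp (continuous_apply a)).mul
    (Complex.continuous_conj.comp (h.comp (continuous_apply b)))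

lemma int_shift {μ : Measure (ℤ → Fin 32)} (h : MeasurePreserving (shiftBy 1) μ μ) (a b : ℤ)
    (j : ℕ) : ∫ x, FF (x (a + j)) * (starRingEnd ℂ) (FF (x (b + j))) ∂μ
      = ∫ x, FF (x a) * (starRingEnd ℂ) (FF (x b)) ∂μ := by
  have hj := h.iterate j
  rw [iter_shift] at hj
  conv_rhs => rw [← hj.map_eq]
  rw [integral_map hj.measurable.aemeasurable (cont_pair a b).aestronglyMeasurable]
  rfl

lemma corr_zero {μ : Measure (ℤ → Fin 32)} (h : IsInvariantProb sg μ) (K : ℕ) :
    ∫ x, FF (x ((K:ℤ) + 1)) * (starRingEnd ℂ) (FF (x 0)) ∂μ = 0 := by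
  obtain ⟨hp, hX, hT⟩ := h
  rw [← norm_le_zero_iff]
  apply le_of_forall_pos_le_add
  intro ε hε
  obtain ⟨N, hN, hb⟩ := birkhoff_small K ε hε
  have hN' : (0:ℝ) < N := by exact_mod_cast hN
  have hint : ∀ a b : ℤ, Integrable (fun x : ℤ → Fin 32 => FF (x a) * (starRingEnd ℂ) (FF (x b))) μ :=
    fun a b => (cont_pair a b).integrable_of_hasCompactSupport (HasCompactSupport.of_compactSpace _)
  have e : ∫ x, ∑ j ∈ range N, FF (x (0 + j + (K + 1))) * (starRingEnd ℂ) (FF (x (0 + j))) ∂μ
      = N * ∫ x, FF (x ((K:ℤ) + 1)) * (starRingEnd ℂ) (FF (x 0)) ∂μ := by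
    rw [integral_finsetSum _ (fun j _ => hint _ _)]
    rw [sum_congr rfl (g := fun _ => ∫ x, FF (x ((K:ℤ) + 1)) * (starRingEnd ℂ) (FF (x 0)) ∂μ)]
    · simp
    · intro j _
      rw [← int_shift hT ((K:ℤ) + 1) 0 j]
      congr 1; funext x; congr 3; ring
  have hle : ‖∫ x, ∑ j ∈ range N, FF (x (0 + j + (K + 1))) * (starRingEnd ℂ) (FF (x (0 + j))) ∂μ‖
      ≤ ε * N * μ.real Set.univ := by
    apply norm_integral_le_of_norm_le_const
    have : ∀ᵐ x ∂μ, x ∈ subshift sg := hX
    filter_upwards [this] with x hx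
    exact hb x hx 0
  rw [e, norm_mul] at hle
  simp only [Complex.norm_natCast, probReal_univ, mul_one] at hle
  rw [zero_add]
  nlinarith

lemma spectral {μ : Measure (ℤ → Fin 32)} (h : IsInvariantProb sg μ) :
    MemLp obs 2 μ ∧ IsSpectralMeasure μ obs volume := by
  have hp := h.1
  have hc : Continuous obs :=
    (continuous_of_discreteTopology (f := FF)).comp (continuous_apply 0)
  refine ⟨MemLp.of_bound hc.aestronglyMeasurable 1 (Eventually.of_forall fun x => FF_le _),
    inferInstance, fun n => ?_⟩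
  have hv : (volume : Measure (AddCircle (1:ℝ))) = AddCircle.haarAddCircle := by
    rw [AddCircle.volume_eq_smul_haarAddCircle]; simp
  have hf : ∫ t : AddCircle (1:ℝ), fourier n t = if n = 0 then 1 else 0 := by
    rw [hv]
    split_ifs with h0
    · subst h0; simp
    · exact integral_eq_zero_of_add_right_eq_neg (fourier_add_half_inv_index h0 one_pos)
  rw [hf]
  simp only [obs, shiftBy, zero_add]
  rcases lt_trichotomy n 0 with hn | hn | hn
  · rw [if_neg hn.ne]
    obtain ⟨K, hK⟩ : ∃ K : ℕ, n = -((K:ℤ) + 1) := ⟨(-n - 1).toNat, by omega⟩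
    have h1 := int_shift h.2.2 n 0 (K + 1)
    have h2 := corr_zero h K
    rw [← h1]
    have h3 := congrArg (starRingEnd ℂ) h2
    rw [← integral_conj, map_zero] at h3
    rw [← h3]
    congr 1; funext x
    have e1 : n + ((K + 1 : ℕ) : ℤ) = 0 := by push_cast; omega
    have e2 : (0:ℤ) + ((K + 1 : ℕ) : ℤ) = K + 1 := by push_cast; ring
    rw [e1, e2, map_mul, Complex.conj_conj, mul_comm]
  · subst hn
    simp [Complex.mul_conj, Complex.normSq_eq_norm_sq, norm_FF]
  · rw [if_neg hn.ne']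
    obtain ⟨K, hK⟩ : ∃ K : ℕ, n = (K:ℤ) + 1 := ⟨(n - 1).toNat, by omega⟩
    rw [hK, corr_zero h K]

end Pool.Agent.H978Z.Subst
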