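import Pool.Agent.H978Z.Subst.Sigma

namespace Pool.Agent.H978Z.Subst

open Finset

lemma count_extend {d : ℕ} (σ : Fin d → List (Fin d)) (i : Fin d) (w : List (Fin d)) :
    (extend σ w).count i = ∑ l, (σ l).count i * w.count l := by
  induction w with
  | nil => simp [extend]
  | cons a w ih =>
    unfold extend at ih ⊢
    rw [List.flatMap_cons, List.count_append, ih]
    simp only [List.count_cons, mul_add, sum_add_distrib]
    rw [add_comm]
    congr 1
    rw [sum_eq_single a]
    · simp
    · intro b _ hb; simp [Ne.symm hb]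
    · simp

lemma pow_apply {d : ℕ} (σ : Fin d → List (Fin d)) (k : ℕ) (i j : Fin d) :
    (subMatrix σ ^ k) i j = ((extend σ)^[k] [j]).count i := by
  induction k generalizing i with
  | zero =>
    simp only [pow_zero, Function.iterate_zero, id, Matrix.one_apply, List.count_singleton]
    by_cases h : i = j
    · simp [h]
    · simp [h, Ne.symm h]
  | succ k ih =>
    rw [pow_succ', Matrix.mul_apply, Function.iterate_succ_apply', count_extend]
    apply sum_congr rfl
    intro l _
    rw [ih]; rfl

lemma mem_tw : ∀ b : Fin 4, ∀ i : Fin 32, i ∈ tw 5 b := by decide +kernel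

lemma rot_surj : ∀ j i : Fin 32, rot (spin j) (rot (8 - spin j) i) = i := by decide +kernel

lemma primitive : Primitive sg := by
  refine ⟨5, by norm_num, fun i j => ?_⟩
  rw [pow_apply, List.count_pos_iff]
  change i ∈ tau 5 j
  rw [eq_rot j, tau_rot, ← rot_surj j i]
  exact List.mem_map_of_mem (mem_tw _ _)

/-- indicator of the short letters -/
def isP (a : Fin 32) : ℕ := if a.val < 16 then 1 else 0

/-- indicator of the long letters -/
def isQ (a : Fin 32) : ℕ := if a.val < 16 then 0 else 1

lemma colP : ∀ j, ∑ i, isP i * subMatrix sg i j = 2 := by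
  unfold subMatrix; decide +kernel

lemma colQ : ∀ j, ∑ i, isQ i * subMatrix sg i j = isP j + 2 * isQ j := by
  unfold subMatrix; decide +kernel

/-- the positive left eigenvector -/
noncomputable def ell (a : Fin 32) : ℝ := isP a + Real.sqrt 2 * isQ a

lemma isPQ (a : Fin 32) : isP a + isQ a = 1 := by unfold isP isQ; split_ifs <;> rfl

lemma ell_pos (a : Fin 32) : 0 < ell a := by
  unfold ell isP isQ; split_ifs <;> simp

lemma ell_eig (j : Fin 32) : ∑ i, ell i * subMatrix sg i j = (2 + Real.sqrt 2) * ell j := by
  have h1 : ∑ i, (isP i : ℝ) * subMatrix sg i j = 2 := by exact_mod_cast colP j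
  have h2 : ∑ i, (isQ i : ℝ) * subMatrix sg i j = isP j + 2 * isQ j := by exact_mod_cast colQ j
  have h3 : (isP j : ℝ) + isQ j = 1 := by exact_mod_cast isPQ j
  have h4 : Real.sqrt 2 * Real.sqrt 2 = 2 := Real.mul_self_sqrt (by norm_num)
  simp only [ell, add_mul, mul_assoc, sum_add_distrib, ← mul_sum, h1, h2]
  linear_combination (-2) * h3 - (isQ j : ℝ) * h4

lemma root_iff (M : Matrix (Fin 32) (Fin 32) ℂ) (z : ℂ) :
    M.charpoly.IsRoot z ↔ ∃ v ≠ 0, M.mulVec v = z • v := by
  rw [Polynomial.IsRoot.def, Matrix.eval_charpoly, ← Matrix.exists_mulVec_eq_zero_iff]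
  refine exists_congr fun v => and_congr_right fun _ => ?_
  rw [Matrix.sub_mulVec, sub_eq_zero, eq_comm]
  have : (Matrix.scalar (Fin 32) z).mulVec v = z • v := by
    funext i; simp [Matrix.scalar_apply, Matrix.mulVec_diagonal]
  rw [this]

lemma isPF : IsPF sg (2 + Real.sqrt 2) := by
  constructor
  · rw [← Matrix.charpoly_transpose, root_iff]
    refine ⟨fun i => (ell i : ℂ), ?_, ?_⟩
    · intro h
      have := congrFun h 0
      simp only [Pi.zero_apply, Complex.ofReal_eq_zero] at this
      exact (ell_pos 0).ne' this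
    · funext j
      have := congrArg (fun r : ℝ => (r : ℂ)) (ell_eig j)
      simp only [Matrix.mulVec, dotProduct, Matrix.transpose_apply, Matrix.map_apply, Pi.smul_apply,
        smul_eq_mul]
      push_cast at this ⊢
      rw [← this]
      exact sum_congr rfl fun i _ => mul_comm _ _
  · intro z hz
    obtain ⟨v, hv, h⟩ := (root_iff _ z).1 hz
    have hpos : 0 < ∑ i, ell i * ‖v i‖ := by
      obtain ⟨i, hi⟩ := Function.ne_iff.1 hv
      exact sum_pos' (fun i _ => mul_nonneg (ell_pos i).le (norm_nonneg _))
        ⟨i, mem_univ _, mul_pos (ell_pos i) (norm_pos_iff.2 hi)⟩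
    have hle : ‖z‖ * ∑ i, ell i * ‖v i‖ ≤ (2 + Real.sqrt 2) * ∑ i, ell i * ‖v i‖ := by
      calc ‖z‖ * ∑ i, ell i * ‖v i‖ = ∑ i, ell i * ‖z * v i‖ := by
            rw [mul_sum]; apply sum_congr rfl; intro i _; rw [norm_mul]; ring
        _ ≤ ∑ i, ell i * ∑ j, (subMatrix sg i j : ℝ) * ‖v j‖ := by
            apply sum_le_sum; intro i _
            apply mul_le_mul_of_nonneg_left _ (ell_pos i).le
            have := congrFun h i
            simp only [Matrix.mulVec, dotProduct, Matrix.map_apply, Pi.smul_apply,
              smul_eq_mul] at this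
            rw [← this]
            refine (norm_sum_le _ _).trans (le_of_eq ?_)
            apply sum_congr rfl; intro j _; simp
        _ = ∑ j, (∑ i, ell i * subMatrix sg i j) * ‖v j‖ := by
            simp only [mul_sum, sum_mul]
            rw [sum_comm]
            apply sum_congr rfl; intro j _
            apply sum_congr rfl; intro i _; ring
        _ = _ := by
            rw [mul_sum]; apply sum_congr rfl; intro j _; rw [ell_eig]; ring
    exact le_of_mul_le_mul_right hle hpos

end Pool.Agent.H978Z.Subst
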