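import Pool.Agent.H978Z.Subst.Corr

namespace Pool.Agent.H978Z.Subst

open LaurentPolynomial

/-- the underlying four-letter substitution with its phases modulo eight -/
def W : Fin 4 → List (Fin 4 × ℕ)
  | 0 => [(2, 0), (0, 0), (1, 0)]
  | 1 => [(0, 0), (1, 4), (3, 0)]
  | 2 => [(2, 5), (0, 0), (1, 2), (3, 3)]
  | 3 => [(2, 3), (0, 0), (1, 6), (3, 5)]

/-- letter with base `b` and spin `g` -/
def mk (b : Fin 4) (g : ℕ) : Fin 32 := ⟨8 * b + g % 8, by omega⟩

/-- base of a letter -/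
def base (a : Fin 32) : Fin 4 := ⟨a / 8, by omega⟩

/-- spin of a letter -/
def spin (a : Fin 32) : ℕ := a % 8

/-- the substitution on 32 letters -/
def sg (a : Fin 32) : List (Fin 32) := (W (base a)).map fun p => mk p.1 (spin a + p.2)

/-- rotation of the spin -/
def rot (g : ℕ) (a : Fin 32) : Fin 32 := mk (base a) (spin a + g)

/-- iterated substitution -/
def tau (m : ℕ) (a : Fin 32) : List (Fin 32) := (extend sg)^[m] [a]

lemma base_mk (b : Fin 4) (g : ℕ) : base (mk b g) = b := by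
  apply Fin.ext; simp only [base, mk]; omega

lemma spin_mk (b : Fin 4) (g : ℕ) : spin (mk b g) = g % 8 := by
  simp only [spin, mk]; omega

lemma mk_congr (b : Fin 4) {g h : ℕ} (e : g % 8 = h % 8) : mk b g = mk b h := by
  apply Fin.ext; simp only [mk]; omega

lemma rot_mk0 (b : Fin 4) (g : ℕ) : rot g (mk b 0) = mk b g := by
  rw [rot, base_mk, spin_mk]; simp

lemma eq_rot (a : Fin 32) : a = rot (spin a) (mk (base a) 0) := by
  rw [rot_mk0]; apply Fin.ext; simp only [mk, base, spin]; omega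

lemma sg_rot (g : ℕ) (a : Fin 32) : sg (rot g a) = (sg a).map (rot g) := by
  unfold sg
  rw [List.map_map, rot, base_mk, spin_mk]
  apply List.map_congr_left
  intro p _
  simp only [Function.comp, rot, base_mk, spin_mk]
  apply mk_congr; omega

lemma iter_extend {d : ℕ} (σ : Fin d → List (Fin d)) (m : ℕ) (w : List (Fin d)) :
    (extend σ)^[m] w = w.flatMap (fun a => (extend σ)^[m] [a]) := by
  induction m generalizing w with
  | zero => simp
  | succ m ih =>
    rw [Function.iterate_succ_apply', ih, extend, List.flatMap_assoc]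
    congr 1
    funext a
    rw [Function.iterate_succ_apply', extend]

lemma tau_add (n m : ℕ) (a : Fin 32) : tau (m + n) a = (tau n a).flatMap (tau m) := by
  unfold tau
  rw [Function.iterate_add_apply, iter_extend]

lemma tau_succ (m : ℕ) (a : Fin 32) : tau (m + 1) a = (sg a).flatMap (tau m) := by
  rw [tau_add]; simp [tau, extend]

lemma tau_rot (g m : ℕ) (a : Fin 32) : tau m (rot g a) = (tau m a).map (rot g) := by
  induction m generalizing a with
  | zero => simp [tau]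
  | succ m ih =>
    rw [tau_succ, tau_succ, sg_rot, List.flatMap_map, List.map_flatMap]
    congr 1
    funext b
    exact ih b

lemma len_flatMap_ge {A : Type} (g : A → List A) (L : ℕ) (h : ∀ a, L ≤ (g a).length) (v : List A) :
    v.length * L ≤ (v.flatMap g).length := by
  induction v with
  | nil => simp
  | cons a v ih =>
    rw [List.flatMap_cons, List.length_append, List.length_cons, Nat.succ_mul]
    have := h a; omega

lemma len_flatMap_le {A : Type} (g : A → List A) (L : ℕ) (h : ∀ a, (g a).length ≤ L) (v : List A) :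
    (v.flatMap g).length ≤ v.length * L := by
  induction v with
  | nil => simp
  | cons a v ih =>
    rw [List.flatMap_cons, List.length_append, List.length_cons, Nat.succ_mul]
    have := h a; omega

lemma sg_len (a : Fin 32) : 3 ≤ (sg a).length ∧ (sg a).length ≤ 4 := by
  revert a; decide

lemma tau_len_ge (m : ℕ) (a : Fin 32) : m + 1 ≤ (tau m a).length := by
  induction m generalizing a with
  | zero => simp [tau]
  | succ m ih =>
    rw [tau_succ]
    have h1 := len_flatMap_ge (tau m) (m + 1) ih (sg a)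
    have h2 := Nat.mul_le_mul_right (m + 1) (sg_len a).1
    omega

lemma tau_len_le (m : ℕ) (a : Fin 32) : (tau m a).length ≤ 4 ^ m := by
  induction m generalizing a with
  | zero => simp [tau]
  | succ m ih =>
    rw [tau_succ]
    have h1 := len_flatMap_le (tau m) (4 ^ m) ih (sg a)
    have h2 := Nat.mul_le_mul_right (4 ^ m) (sg_len a).2
    rw [pow_succ]
    omega

/-- a primitive eighth root of unity -/
noncomputable def zeta : ℂ := ⟨Real.sqrt 2 / 2, Real.sqrt 2 / 2⟩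

lemma zeta_sq : zeta ^ 2 = Complex.I := by
  have h : Real.sqrt 2 * Real.sqrt 2 = 2 := Real.mul_self_sqrt (by norm_num)
  apply Complex.ext <;> simp [zeta, pow_two]
  linarith

lemma zeta_four : zeta ^ 4 = -1 := by
  rw [show (4:ℕ) = 2 * 2 by rfl, pow_mul, zeta_sq, Complex.I_sq]

lemma zeta_eight : zeta ^ 8 = 1 := by
  rw [show (8:ℕ) = 4 * 2 by rfl, pow_mul, zeta_four]; norm_num

lemma zeta_three : zeta ^ 3 = ⟨-(Real.sqrt 2 / 2), Real.sqrt 2 / 2⟩ := by
  rw [pow_succ, zeta_sq]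
  apply Complex.ext <;> simp [zeta]

lemma conj_zeta : (starRingEnd ℂ) zeta = -zeta ^ 3 := by
  rw [zeta_three]
  apply Complex.ext <;> simp [zeta]

lemma sqrt_two_eq : ((Real.sqrt 2 : ℝ) : ℂ) = zeta - zeta ^ 3 := by
  rw [zeta_three]
  apply Complex.ext <;> simp [zeta]

lemma zeta_mul_conj : zeta * (starRingEnd ℂ) zeta = 1 := by
  rw [conj_zeta]; linear_combination (-1 : ℂ) * zeta_four

lemma norm_zeta : ‖zeta‖ = 1 := by
  have h := zeta_mul_conj
  rw [Complex.mul_conj, Complex.normSq_eq_norm_sq] at h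
  have h2 : ‖zeta‖ ^ 2 = 1 := by exact_mod_cast h
  exact (pow_eq_one_iff_of_nonneg (norm_nonneg _) two_ne_zero).1 h2

/-- the spin character -/
noncomputable def FF (a : Fin 32) : ℂ := zeta ^ spin a

lemma norm_FF (a : Fin 32) : ‖FF a‖ = 1 := by simp [FF, norm_zeta]

lemma FF_le (a : Fin 32) : ‖FF a‖ ≤ 1 := (norm_FF a).le

lemma FF_rot (g : ℕ) (a : Fin 32) : FF (rot g a) = zeta ^ g * FF a := by
  rw [FF, FF, rot, spin_mk, ← pow_eq_pow_mod _ zeta_eight, pow_add, mul_comm]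

lemma PP_rot (g : ℕ) (w : List (Fin 32)) : PP FF (w.map (rot g)) = (C zeta) ^ g * PP FF w := by
  induction w with
  | nil => simp [PP]
  | cons a w ih => rw [List.map_cons, PP, PP, ih, FF_rot, map_mul, map_pow]; ring

lemma PS_rot (g : ℕ) (w : List (Fin 32)) :
    PS FF (w.map (rot g)) = (-(C zeta) ^ 3) ^ g * PS FF w := by
  induction w with
  | nil => simp [PS]
  | cons a w ih =>
    rw [List.map_cons, PS, PS, ih, FF_rot, map_mul, map_mul, map_pow, map_pow, conj_zeta, map_neg,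
      map_pow]; ring

lemma Cz4 : (C zeta : ℂ[T;T⁻¹]) ^ 4 = -1 := by
  rw [← map_pow, zeta_four]; simp

lemma corr_rot (K g : ℕ) (w : List (Fin 32)) : corr FF K (w.map (rot g)) = corr FF K w := by
  rw [← coeff_PP_PS, ← coeff_PP_PS, PP_rot, PS_rot]
  congr 2
  have : (C zeta : ℂ[T;T⁻¹]) ^ g * (-(C zeta) ^ 3) ^ g = 1 := by
    rw [← mul_pow]
    have : (C zeta : ℂ[T;T⁻¹]) * (-(C zeta) ^ 3) = 1 := by linear_combination (-1) * Cz4
    rw [this, one_pow]
  linear_combination (PP FF w * PS FF w) * this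

/-- level-`m` word with spin zero -/
def tw (m : ℕ) (b : Fin 4) : List (Fin 32) := tau m (mk b 0)

lemma tau_mk (m : ℕ) (b : Fin 4) (g : ℕ) : tau m (mk b g) = (tw m b).map (rot g) := by
  rw [← rot_mk0, tau_rot, tw]

lemma tw_succ (m : ℕ) (b : Fin 4) :
    tw (m + 1) b = (W b).flatMap (fun p => (tw m p.1).map (rot p.2)) := by
  rw [tw, tau_succ, sg, base_mk, spin_mk, List.flatMap_map]
  congr 1
  funext p
  simp [tau_mk]

lemma tw0 (m : ℕ) : tw (m + 1) 0 =
    (tw m 2).map (rot 0) ++ ((tw m 0).map (rot 0) ++ (tw m 1).map (rot 0)) := by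
  rw [tw_succ]; simp [W]
lemma tw1 (m : ℕ) : tw (m + 1) 1 =
    (tw m 0).map (rot 0) ++ ((tw m 1).map (rot 4) ++ (tw m 3).map (rot 0)) := by
  rw [tw_succ]; simp [W]
lemma tw2 (m : ℕ) : tw (m + 1) 2 = (tw m 2).map (rot 5) ++
    ((tw m 0).map (rot 0) ++ ((tw m 1).map (rot 2) ++ (tw m 3).map (rot 3))) := by
  rw [tw_succ]; simp [W]
lemma tw3 (m : ℕ) : tw (m + 1) 3 = (tw m 2).map (rot 3) ++
    ((tw m 0).map (rot 0) ++ ((tw m 1).map (rot 6) ++ (tw m 3).map (rot 5))) := by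
  rw [tw_succ]; simp [W]

/-- the weighted sum of squared moduli -/
noncomputable def Phi (m : ℕ) : ℂ[T;T⁻¹] :=
  (C zeta - C zeta ^ 3) * (PP FF (tw m 0) * PS FF (tw m 0) + PP FF (tw m 1) * PS FF (tw m 1))
    + (PP FF (tw m 2) * PS FF (tw m 2) + PP FF (tw m 3) * PS FF (tw m 3))

lemma key_alg {R : Type} [CommRing R] (z p0 p1 p2 p3 q0 q1 q2 q3 t0 t1 t2 s0 s1 s2 : R)
    (hz : z ^ 4 = -1) (h0 : t0 * s0 = 1) (h1 : t1 * s1 = 1) (h2 : t2 * s2 = 1) :
    (z - z ^ 3) * ((z ^ 0 * p2 + t2 * (z ^ 0 * p0 + t0 * (z ^ 0 * p1))) *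
        ((-z ^ 3) ^ 0 * q2 + s2 * ((-z ^ 3) ^ 0 * q0 + s0 * ((-z ^ 3) ^ 0 * q1))) +
      (z ^ 0 * p0 + t0 * (z ^ 4 * p1 + t1 * (z ^ 0 * p3))) *
        ((-z ^ 3) ^ 0 * q0 + s0 * ((-z ^ 3) ^ 4 * q1 + s1 * ((-z ^ 3) ^ 0 * q3)))) +
    ((z ^ 5 * p2 + t2 * (z ^ 0 * p0 + t0 * (z ^ 2 * p1 + t1 * (z ^ 3 * p3)))) *
        ((-z ^ 3) ^ 5 * q2 + s2 * ((-z ^ 3) ^ 0 * q0 + s0 * ((-z ^ 3) ^ 2 * q1
          + s1 * ((-z ^ 3) ^ 3 * q3)))) +
      (z ^ 3 * p2 + t2 * (z ^ 0 * p0 + t0 * (z ^ 6 * p1 + t1 * (z ^ 5 * p3)))) *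
        ((-z ^ 3) ^ 3 * q2 + s2 * ((-z ^ 3) ^ 0 * q0 + s0 * ((-z ^ 3) ^ 6 * q1
          + s1 * ((-z ^ 3) ^ 5 * q3))))) =
    (2 + (z - z ^ 3)) * ((z - z ^ 3) * (p0 * q0 + p1 * q1) + (p2 * q2 + p3 * q3)) := by
  grind

lemma Phi_succ (m : ℕ) : Phi (m + 1) = (2 + (C zeta - C zeta ^ 3)) * Phi m := by
  unfold Phi
  rw [tw0, tw1, tw2, tw3]
  simp only [PP_append, PS_append, PP_rot, PS_rot, List.length_map]
  exact key_alg _ _ _ _ _ _ _ _ _ _ _ _ _ _ _ Cz4 (TT _) (TT _) (TT _)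

lemma C_sqrt : (C zeta - C zeta ^ 3 : ℂ[T;T⁻¹]) = C ((Real.sqrt 2 : ℝ) : ℂ) := by
  rw [sqrt_two_eq, map_sub, map_pow]

lemma Phi_coeff (K m : ℕ) : (Phi m).coeff ((K : ℤ) + 1) =
    ((Real.sqrt 2 : ℝ) : ℂ) * (corr FF K (tw m 0) + corr FF K (tw m 1))
      + (corr FF K (tw m 2) + corr FF K (tw m 3)) := by
  unfold Phi
  rw [C_sqrt]
  simp only [AddMonoidAlgebra.coeff_add, Finsupp.add_apply, coeff_C_mul, coeff_PP_PS]

lemma rel (K m : ℕ) : ((Real.sqrt 2 : ℝ) : ℂ) * (corr FF K (tw m 0) + corr FF K (tw m 1))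
      + (corr FF K (tw m 2) + corr FF K (tw m 3)) = 0 := by
  induction m with
  | zero =>
    have : ∀ b, corr FF K (tw 0 b) = 0 := fun b => corr_short K _ (by simp [tw, tau])
    simp [this]
  | succ m ih =>
    rw [← Phi_coeff] at ih ⊢
    have : (2 + (C zeta - C zeta ^ 3) : ℂ[T;T⁻¹]) = C (2 + ((Real.sqrt 2 : ℝ) : ℂ)) := by
      rw [C_sqrt, map_add, map_ofNat]
    rw [Phi_succ, this, coeff_C_mul, ih, mul_zero]

lemma corr3 (K : ℕ) (u v w : List (Fin 32)) :
    ‖corr FF K (u ++ (v ++ w)) - (corr FF K u + corr FF K v + corr FF K w)‖ ≤ 2 * (K + 1) := by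
  have h1 := corr_append FF_le K u (v ++ w)
  have h2 := corr_append FF_le K v w
  have e : corr FF K (u ++ (v ++ w)) - (corr FF K u + corr FF K v + corr FF K w)
      = (corr FF K (u ++ (v ++ w)) - corr FF K u - corr FF K (v ++ w))
        + (corr FF K (v ++ w) - corr FF K v - corr FF K w) := by ring
  rw [e]
  exact (norm_add_le _ _).trans (by linarith)

lemma corr4 (K : ℕ) (t u v w : List (Fin 32)) :
    ‖corr FF K (t ++ (u ++ (v ++ w))) - (corr FF K t + corr FF K u + corr FF K v + corr FF K w)‖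
      ≤ 3 * (K + 1) := by
  have h1 := corr_append FF_le K t (u ++ (v ++ w))
  have h2 := corr3 K u v w
  have e : corr FF K (t ++ (u ++ (v ++ w))) - (corr FF K t + corr FF K u + corr FF K v + corr FF K w)
      = (corr FF K (t ++ (u ++ (v ++ w))) - corr FF K t - corr FF K (u ++ (v ++ w)))
        + (corr FF K (u ++ (v ++ w)) - (corr FF K u + corr FF K v + corr FF K w)) := by ring
  rw [e]
  exact (norm_add_le _ _).trans (by linarith)

lemma norm_le_of_sub {a b : ℂ} {r s : ℝ} (h1 : ‖a - b‖ ≤ r) (h2 : ‖b‖ ≤ s) : ‖a‖ ≤ r + s := by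
  have : a = (a - b) + b := by ring
  rw [this]; exact (norm_add_le _ _).trans (by linarith)

lemma corr_bdd (K m : ℕ) :
    ‖corr FF K (tw m 0) + corr FF K (tw m 1)‖ ≤ 10 * (K + 1) ∧
    ‖corr FF K (tw m 2)‖ ≤ 8 * (K + 1) ∧ ‖corr FF K (tw m 3)‖ ≤ 8 * (K + 1) ∧
    ‖corr FF K (tw m 0)‖ ≤ 20 * (K + 1) ∧ ‖corr FF K (tw m 1)‖ ≤ 20 * (K + 1) := by
  have hK : (0:ℝ) ≤ K + 1 := by positivity
  induction m with
  | zero =>
    have : ∀ b, corr FF K (tw 0 b) = 0 := fun b => corr_short K _ (by simp [tw, tau])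
    simp only [this, add_zero, norm_zero]
    refine ⟨?_, ?_, ?_, ?_, ?_⟩ <;> positivity
  | succ m ih =>
    obtain ⟨i1, i2, i3, -, -⟩ := ih
    have hr := rel K m
    have a0 := corr3 K ((tw m 2).map (rot 0)) ((tw m 0).map (rot 0)) ((tw m 1).map (rot 0))
    have a1 := corr3 K ((tw m 0).map (rot 0)) ((tw m 1).map (rot 4)) ((tw m 3).map (rot 0))
    have a2 := corr4 K ((tw m 2).map (rot 5)) ((tw m 0).map (rot 0)) ((tw m 1).map (rot 2))
      ((tw m 3).map (rot 3))
    have a3 := corr4 K ((tw m 2).map (rot 3)) ((tw m 0).map (rot 0)) ((tw m 1).map (rot 6))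
      ((tw m 3).map (rot 5))
    rw [← tw0] at a0; rw [← tw1] at a1; rw [← tw2] at a2; rw [← tw3] at a3
    simp only [corr_rot] at a0 a1 a2 a3
    set c0 := corr FF K (tw m 0)
    set c1 := corr FF K (tw m 1)
    set c2 := corr FF K (tw m 2)
    set c3 := corr FF K (tw m 3)
    have s1 : (1.4:ℝ) ≤ Real.sqrt 2 := by
      apply Real.le_sqrt_of_sq_le; norm_num
    have s2 : Real.sqrt 2 ≤ (1.5:ℝ) := by
      apply Real.sqrt_le_iff.2; norm_num
    have b1 : ‖c2 + c0 + c1 + c3‖ ≤ 5 * (K + 1) := by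
      have : c2 + c0 + c1 + c3 = ((1 - Real.sqrt 2 : ℝ) : ℂ) * (c0 + c1) := by
        push_cast; linear_combination hr
      rw [this, norm_mul, Complex.norm_real, Real.norm_eq_abs, abs_of_nonpos (by linarith)]
      nlinarith [norm_nonneg (c0 + c1)]
    have b2 : ‖(c2 + c0 + c1) + (c0 + c1 + c3)‖ ≤ 6 * (K + 1) := by
      have : (c2 + c0 + c1) + (c0 + c1 + c3) = ((2 - Real.sqrt 2 : ℝ) : ℂ) * (c0 + c1) := by
        push_cast; linear_combination hr
      rw [this, norm_mul, Complex.norm_real, Real.norm_eq_abs, abs_of_nonneg (by linarith)]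
      nlinarith [norm_nonneg (c0 + c1)]
    have b3 : ‖c2 + c0 + c1‖ ≤ 18 * (K + 1) := by
      rw [add_assoc]; exact (norm_add_le _ _).trans (by linarith)
    have b4 : ‖c0 + c1 + c3‖ ≤ 18 * (K + 1) := (norm_add_le _ _).trans (by linarith)
    refine ⟨?_, ?_, ?_, ?_, ?_⟩
    · have : ‖(corr FF K (tw (m + 1) 0) + corr FF K (tw (m + 1) 1)) -
          ((c2 + c0 + c1) + (c0 + c1 + c3))‖ ≤ 4 * (K + 1) := by
        have e : (corr FF K (tw (m + 1) 0) + corr FF K (tw (m + 1) 1)) -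
          ((c2 + c0 + c1) + (c0 + c1 + c3)) = (corr FF K (tw (m + 1) 0) - (c2 + c0 + c1))
            + (corr FF K (tw (m + 1) 1) - (c0 + c1 + c3)) := by ring
        rw [e]; exact (norm_add_le _ _).trans (by linarith)
      linarith [norm_le_of_sub this b2]
    · linarith [norm_le_of_sub a2 b1]
    · linarith [norm_le_of_sub a3 b1]
    · linarith [norm_le_of_sub a0 b3]
    · linarith [norm_le_of_sub a1 b4]

lemma corr_tau_le (K m : ℕ) (a : Fin 32) : ‖corr FF K (tau m a)‖ ≤ 20 * (K + 1) := by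
  have hK : (0:ℝ) ≤ K + 1 := by positivity
  rw [eq_rot a, tau_rot, corr_rot]
  obtain ⟨-, i2, i3, i0, i1⟩ := corr_bdd K m
  change ‖corr FF K (tw m (base a))‖ ≤ _
  generalize base a = b
  fin_cases b
  · exact i0
  · exact i1
  · exact i2.trans (by linarith)
  · exact i3.trans (by linarith)

lemma legal_bound (K m n : ℕ) (a : Fin 32) (u : List (Fin 32)) (h : u <:+: tau n a) :
    ‖corr FF K u‖ ≤ (21 * (K + 1) / (m + 1)) * u.length + 2 * 4 ^ m + (K + 1) := by
  have hK : (0:ℝ) ≤ K + 1 := by positivity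
  rcases le_or_gt m n with hmn | hmn
  · obtain ⟨j, rfl⟩ := Nat.exists_eq_add_of_le hmn
    rw [tau_add] at h
    refine infix_bound FF_le K (tau m) _ _ (by positivity) ?_ ?_ (by positivity) _ _ h
    · intro b; exact_mod_cast tau_len_le m b
    · intro b
      have h1 := corr_tau_le K m b
      have h2 : ((m:ℝ) + 1) ≤ (tau m b).length := by exact_mod_cast tau_len_ge m b
      have h3 : 21 * ((K:ℝ) + 1) = (21 * (K + 1) / (m + 1)) * (m + 1) := by field_simp
      have h4 : (21 * ((K:ℝ) + 1) / (m + 1)) * (m + 1) ≤ (21 * (K + 1) / (m + 1)) * (tau m b).length := by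
        gcongr
      linarith
  · have h1 := corr_le FF_le K u
    have h2 : u.length ≤ 4 ^ m :=
      h.length_le.trans ((tau_len_le n a).trans (Nat.pow_le_pow_right (by norm_num) hmn.le))
    have h3 : (u.length : ℝ) ≤ 4 ^ m := by exact_mod_cast h2
    have h4 : 0 ≤ (21 * ((K:ℝ) + 1) / (m + 1)) * u.length := by positivity
    have h5 : (0:ℝ) ≤ 4 ^ m := by positivity
    linarith

end Pool.Agent.H978Z.Subst
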